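import Pool.Agent.Helper42.SLC.Goals

/-!
# Packet NVP of project SLC (`p`-adic non vanishing)
-/

namespace Pool.Agent.Helper27.SLC

open Pool.Agent.Helper17.SL Pool.Agent.Helper42.SLC
open Pool.Agent.Helper51.SigLeo Pool.Agent.Helper51.SixExp NumberField Module TensorProduct

universe u v w x

theorem nvp (hTR : S_TRANS.{w, x, w, v}) (h1 : S_GA1.{w, x, v}) (hNV : S_NV.{u, v}) :
    S_NVP.{u, v, w, x} := by
  intro M _ N _ _ _ _ Ω _ _ _ _ p _ k _ _ _ _ ιp Λ θ τ ρ hθ hc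
  have hchar : CharZero k := charZero_of_padic p (k := k)
  by_contra hcon
  push Not at hcon
  obtain ⟨E, hE, θ₁, hθ₁⟩ := h1 Ω k ιp (N ≃ₐ[M] N) θ
  set lam : E →+* Ω := algebraMap E Ω with hlam
  obtain ⟨ι', hι'⟩ := exists_comp_eq τ ρ
  have hj : ∀ g, (ιp.comp lam) ((θ₁ g : Eˣ) : E) = θ g := fun g ↦ hθ₁ g
  set ε : E →+* ℂ := ι'.comp lam with hε
  -- the character is not trivial
  have hne : (Units.map (ε : E →* ℂ)).comp θ₁ ≠ 1 := by
    intro h
    apply hθ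
    ext g
    have h2 := congrArg (fun z : ℂˣ ↦ (z : ℂ)) (DFunLike.congr_fun h g)
    have h3 : ε ((θ₁ g : Eˣ) : E) = ε 1 := by
      rw [map_one]
      simpa using h2
    rw [← hj, ε.injective h3, map_one]
    rfl
  have hc' : ∀ c : N ≃ₐ[M] N, ComplexEmbedding.conjugate ρ = ρ.comp (c : N →+* N) →
      (Units.map (ε : E →* ℂ)).comp θ₁ c = 1 := by
    intro c hcc
    have h2 : (ιp.comp lam) ((θ₁ c : Eˣ) : E) = (ιp.comp lam) 1 := by
      rw [hj, hc c hcc, map_one, Units.val_one]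
    have h3 : ((θ₁ c : Eˣ) : E) = 1 := (ιp.comp lam).injective h2
    apply Units.ext
    show ε ((θ₁ c : Eˣ) : E) = 1
    rw [h3, map_one]
  obtain ⟨v, hv⟩ := hNV M N ((Units.map (ε : E →* ℂ)).comp θ₁) ρ hne hc'
  apply hv
  have h3 := hTR p k Ω ιp Λ E lam (N ≃ₐ[M] N) (fun g ↦ ((θ₁ g⁻¹ : Eˣ) : E))
    (fun g ↦ img τ (unitsHom g v).toMul) (fun g ↦ img_isUnitAlg _ _) (by
      rw [← hcon v]
      unfold tw
      refine Finset.sum_congr rfl fun g _ ↦ ?_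
      rw [log_img, ← hj]
      rfl) ε ι'
  rw [← h3, ← hι']
  rfl

end Pool.Agent.Helper27.SLC
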